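import Pool.Agent.helper62.W3.SpecA
import Pool.Agent.helper85.BVP.Boxes
import Pool.Agent.helper85.BVP.Tau

set_option autoImplicit false

namespace Pool.Agent.EC

open Finset ArithmeticFunction
open Pool.Agent.CH (Win rgh dl eU Mo ClP ClB)
open Pool.Agent.helper85.BVP (trunc beta Mr Zr)

theorem VBD_eU (U d : ℕ) (hd : 1 ≤ d) : |eU U d| ≤ Real.log d := by
  have h1 : eU U d = ∑ p ∈ d.divisorsAntidiagonal,
      (trunc Mr U) p.1 * (trunc (vonMangoldt : ArithmeticFunction ℝ) U) p.2 := by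
    rw [eU, ArithmeticFunction.mul_apply]
  rw [h1]
  refine (Finset.abs_sum_le_sum_abs _ _).trans ?_
  have h2 : Real.log d = ∑ p ∈ d.divisorsAntidiagonal, vonMangoldt p.2 := by
    rw [← ArithmeticFunction.vonMangoldt_sum (n := d)]
    exact (Nat.sum_divisorsAntidiagonal' (fun _ b => (vonMangoldt b : ℝ))).symm
  rw [h2]
  refine Finset.sum_le_sum fun p _ => ?_
  rw [abs_mul, Pool.Agent.helper85.BVP.trunc_apply, Pool.Agent.helper85.BVP.trunc_apply]
  have h3 : |if p.1 ≤ U then Mr p.1 else 0| ≤ 1 := by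
    split_ifs
    · exact Pool.Agent.helper85.BVP.abs_Mr_le _
    · simp
  have h4 : |if p.2 ≤ U then (vonMangoldt p.2 : ℝ) else 0| ≤ vonMangoldt p.2 := by
    split_ifs
    · rw [abs_of_nonneg vonMangoldt_nonneg]
    · rw [abs_zero]
      exact vonMangoldt_nonneg
  calc _ ≤ 1 * (vonMangoldt p.2 : ℝ) := mul_le_mul h3 h4 (abs_nonneg _) zero_le_one
    _ = _ := one_mul _

theorem VBD_zero (U d : ℕ) (hd : U ^ 2 < d) : eU U d = 0 := by
  rw [eU, ArithmeticFunction.mul_apply]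
  refine Finset.sum_eq_zero fun p hp => ?_
  rw [Nat.mem_divisorsAntidiagonal] at hp
  rw [Pool.Agent.helper85.BVP.trunc_apply, Pool.Agent.helper85.BVP.trunc_apply]
  by_cases h1 : p.1 ≤ U
  · by_cases h2 : p.2 ≤ U
    · exfalso
      have : p.1 * p.2 ≤ U * U := Nat.mul_le_mul h1 h2
      rw [hp.1] at this
      nlinarith
    · simp [h2]
  · simp [h1]

theorem VBD_rst (N U : ℕ) (f : ℕ → ℝ) (k : ℕ) : rst N U f k ^ 2 ≤ f k ^ 2 := by
  rw [rst]
  split_ifs
  · exact le_refl _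
  · rw [zero_pow two_ne_zero]
    exact sq_nonneg _

theorem VBD_log {N Y k : ℕ} (hN : 12 ≤ Real.log N) (hY : Y ≤ 64 * N ^ 3) (hk : 1 ≤ k) (hkY : k ≤ Y) :
    Real.log k ≤ 4 * Real.log N := by
  have hN0 : 0 < N := by
    rcases Nat.eq_zero_or_pos N with h | h
    · subst h
      simp at hN
      linarith
    · exact h
  have h1 : (k : ℝ) ≤ 64 * (N : ℝ) ^ 3 := by exact_mod_cast hkY.trans hY
  have hk0 : (0 : ℝ) < k := by exact_mod_cast hk
  have hNr : (0 : ℝ) < N := by exact_mod_cast hN0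
  have h2 := Real.log_le_log hk0 h1
  rw [Real.log_mul (by norm_num) (by positivity), Real.log_pow] at h2
  have h3 : Real.log 64 ≤ 12 := by
    have : (64 : ℝ) = 2 ^ 6 := by norm_num
    rw [this, Real.log_pow]
    have := Real.log_two_lt_d9
    push_cast
    linarith
  push_cast at h2
  linarith

theorem VBD_sum {N Y : ℕ} (U : ℕ) (f : ℕ → ℝ) (hN : 12 ≤ Real.log N)
    (hf : ∀ k : ℕ, 1 ≤ k → k ≤ Y → f k ^ 2 ≤ (4 * Real.log N) ^ 2) :
    ∑ k ∈ Ioc 0 Y, rst N U f k ^ 2 ≤ Y * Real.log N ^ 5 := by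
  have h1 : ∑ k ∈ Ioc 0 Y, rst N U f k ^ 2 ≤ ∑ _k ∈ Ioc 0 Y, Real.log N ^ 5 := by
    refine Finset.sum_le_sum fun k hk => ?_
    rw [Finset.mem_Ioc] at hk
    refine (VBD_rst N U f k).trans ((hf k (by omega) hk.2).trans ?_)
    have h3 : (12 : ℝ) ^ 3 ≤ Real.log N ^ 3 := pow_le_pow_left₀ (by norm_num) hN 3
    have h4 : 0 ≤ Real.log N ^ 2 := sq_nonneg _
    nlinarith
  refine h1.trans ?_
  rw [Finset.sum_const, Nat.card_Ioc, nsmul_eq_mul, Nat.sub_zero]

theorem VBD : VBD_stmt := by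
  refine ⟨VBD_eU, VBD_zero, ⌈Real.exp 12⌉₊, fun N hN U Y hY => ?_⟩
  have hNe : Real.exp 12 ≤ N := Nat.ceil_le.mp hN
  have hL : 12 ≤ Real.log N := by
    have := Real.log_le_log (Real.exp_pos 12) hNe
    rwa [Real.log_exp] at this
  refine ⟨?_, ?_, ?_, ?_⟩
  · refine VBD_sum U _ hL fun k hk hkY => ?_
    exact pow_le_pow_left₀ vonMangoldt_nonneg (vonMangoldt_le_log.trans (VBD_log hL hY hk hkY)) 2
  · have h1 : ∑ k ∈ Ioc 0 Y, rst N U (fun k => beta U k) k ^ 2 ≤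
        ∑ k ∈ Ioc 0 Y, Pool.Agent.helper85.BVP.tau k ^ 2 := by
      refine Finset.sum_le_sum fun k _ => (VBD_rst N U _ k).trans ?_
      have h := Pool.Agent.helper85.BVP.abs_beta_le U k
      rw [← sq_abs]
      exact pow_le_pow_left₀ (abs_nonneg _) h 2
    refine h1.trans ((Pool.Agent.helper85.BVP.sum_tau_sq_le Y).trans ?_)
    rcases Nat.eq_zero_or_pos Y with h0 | h0
    · subst h0
      simp
    · refine mul_le_mul_of_nonneg_left ?_ (Nat.cast_nonneg Y)
      have h2 : 1 + Real.log Y ≤ 5 * Real.log N := by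
        have := VBD_log hL hY h0 le_rfl
        linarith
      have h3 : 0 ≤ 1 + Real.log Y := by
        have : 0 ≤ Real.log (Y : ℝ) := Real.log_natCast_nonneg Y
        linarith
      refine (pow_le_pow_left₀ h3 h2 3).trans ?_
      have h4 : (12 : ℝ) ^ 2 ≤ Real.log N ^ 2 := pow_le_pow_left₀ (by norm_num) hL 2
      have h5 : 0 ≤ Real.log N ^ 3 := by positivity
      nlinarith
  · refine VBD_sum U _ hL fun k hk hkY => ?_
    rw [← sq_abs]
    exact pow_le_pow_left₀ (abs_nonneg _) ((VBD_eU U k hk).trans (VBD_log hL hY hk hkY)) 2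
  · refine VBD_sum U _ hL fun k hk hkY => ?_
    nlinarith

end Pool.Agent.EC
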